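import Pool.Agent.Q167.CN.Defs
import Pool.Agent.Q167.CN.Main

set_option autoImplicit false

open MeasureTheory Pool.Agent.Q167.CN

namespace Pool.Agent.Results.MP_90e10c_an.OnlyPlusMinusOne

/-- The Jorgensen-Pedersen measure `μ` (the self-similar probability measure with equal weights for `x ↦ x/4` and
`x ↦ (x+2)/4`), which has compact support, is singular and has no atoms, has a spectrum `T` consisting of integers
such that the complete numbers of the spectral pair `(μ, T)` are exactly `1` and `-1`. -/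
theorem result : ∃ (μ : Measure ℝ) (T : Set ℤ), IsProbabilityMeasure μ ∧
    μ = (2⁻¹ : ENNReal) • (μ.map (fun x => x / 4) + μ.map (fun x => (x + 2) / 4)) ∧
    (∃ K : Set ℝ, IsCompact K ∧ μ Kᶜ = 0) ∧
    μ ⟂ₘ (volume : Measure ℝ) ∧
    (∀ x : ℝ, μ {x} = 0) ∧
    IsSpectralPair μ (((↑) : ℤ → ℝ) '' T) ∧
    {t : ℝ | IsSpectralPair μ ((fun x => t * x) '' (((↑) : ℤ → ℝ) '' T))} = {1, -1} := by
  obtain ⟨T, h1, h2, h3⟩ := main
  refine ⟨μ4, T, inferInstance, μ4_refine, ⟨Set.range X, isCompact_range_X, μ4_compl_range⟩, μ4_singular, ?_, h1, h3⟩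
  exact no_atoms h1 (h2.image (Int.cast_injective.injOn))

end Pool.Agent.Results.MP_90e10c_an.OnlyPlusMinusOne
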